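import Pool.Agent.V11321.ND.Chung

/-!
# Chung's law of the iterated logarithm for the percolation interface at almost every time

Critical bond percolation (`q = 1`) on `δ ℤ²` in a rectangle `D = (-A, B) × (0, H)`, with the
counterclockwise boundary arc from `a = t + i H` to `b = 0` wired and the other one dual-wired. The
exploration path is parametrised by its number of steps: `Rect.curve` is the piecewise linear curve
on `[0, 1]` run at constant speed, and `Rect.time` is the number of steps times `δ ^ (7/4)`;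
`Rect.law` is the law of (curve, time). Weak limits exist along a subsequence of every sequence of
meshes.

There are universal constants `c, C > 0` such that for every rectangle and every weak limit
`p = (f, T)`, almost surely, for Lebesgue almost every time `u`,
`c ≤ liminf (h → 0) of sup {|f(y) - f(u)| : T |y - u| ≤ h} / g(h) ≤ C`, where
`g(h) = h ^ (4/7) (log log (1/h)) ^ (-1/14)`: for all small `h` the curve leaves the disc of radius
`c g(h)` around `f(u)` within natural time `h` of `u` (before or after), and there are arbitrarily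
small `h` for which the whole arc within natural time `h` of `u` (before and after) stays in the
disc of radius `C g(h)` around `f(u)`.

Definitions: `Pool.Agent.H984R4.NP.Model` (`Rect`, `pos`, `clamp`, `pl`, `X`, `Rect.dm`,
`Rect.curve`, `Rect.time`, `Rect.law`), `Pool.Agent.H984R4.NP.Defs` (`Dm`, `Dm.edges`, `Dm.wir`,
`Dm.cfg`, `Dm.walk`, `Dm.len`) and `Pool.Agent.H984R3.Per.Defs` (states, `ae`, `mv`, `rt`, `nxt`,
`orb`).
-/

set_option autoImplicit false

namespace Pool.Agent.Results.MP_b3e76a_pr.ChungLaw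

open H984N MeasureTheory Filter Topology

theorem result : ∃ c C : ℝ, 0 < c ∧ 0 < C ∧ ∀ R : Rect,
    (∀ δ : ℕ → ℝ, (∀ i, 0 < δ i) → Tendsto δ atTop (𝓝 0) →
      ∃ φ : ℕ → ℕ, StrictMono φ ∧ ∃ μ : ProbabilityMeasure X,
        Tendsto (fun i => R.law (δ (φ i))) atTop (𝓝 μ)) ∧
    ∀ δ : ℕ → ℝ, (∀ i, 0 < δ i) → Tendsto δ atTop (𝓝 0) → ∀ μ : ProbabilityMeasure X,
      Tendsto (fun i => R.law (δ i)) atTop (𝓝 μ) →
      ∀ᵐ p ∂(μ : Measure X), 0 < p.2 ∧ ∀ᵐ u : unitInterval,
        (∀ᶠ h : ℝ in 𝓝[>] 0, ∃ y : unitInterval, p.2 * |(y : ℝ) - u| ≤ h ∧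
          c * (h ^ (4/7 : ℝ) * Real.log (Real.log (1 / h)) ^ (-(1/14) : ℝ)) <
            dist (p.1 y) (p.1 u)) ∧
        ∃ᶠ h : ℝ in 𝓝[>] 0, ∀ y : unitInterval, p.2 * |(y : ℝ) - u| ≤ h →
          dist (p.1 y) (p.1 u) ≤
            C * (h ^ (4/7 : ℝ) * Real.log (Real.log (1 / h)) ^ (-(1/14) : ℝ)) :=
  Pool.Agent.V11321.ND.chung

end Pool.Agent.Results.MP_b3e76a_pr.ChungLaw
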