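import Pool.Agent.V11324.KI.Clu

/-!
# Points in the clusters of several independent critical configurations

The random cluster model with `q = 1` at its self-dual point (critical bond percolation) on `δ ℤ²`
in a rectangle `D = (-A, B) × (0, H)` with Dobrushin boundary conditions: the counterclockwise
boundary arc from `a = t + i H` to `b = 0` is wired, the other one is free. The collection of all
open clusters is a random finite set of compact sets. Weak limits of its law, as `δ → 0`, exist
along a subsequence of every sequence of meshes.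

For `k` independent collections, distributed according to any weak limits (for the same or for
different rectangles), and every fixed sigma-compact set `S` in the rectangles, almost surely the set
of the points of `S` which lie, for each of the `k` collections, in a member which is not a single
point has Hausdorff dimension exactly `dim S - 5 k / 48` (truncated at `0`), and it is empty if
`dim S < 5 k / 48`. In particular, for the whole rectangle the dimension is almost surely
`2 - 5 k / 48` for `k ≤ 19`, and for `k ≥ 20` there are almost surely no such points.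

Definitions (in `Pool.Agent.H934R2.Expl.Model` and `Pool.Agent.H389R2.CL.Model`): `Rect` (the
domain), `Rect.D`, `pt`, `Rect.verts`, `Rect.edges` (the discrete domain), `Rect.wired` (boundary
condition), `cluAt`, `csetAt`, `clAt` (the cluster as a compact set: its vertices and its edges),
`coll` (the collection of all clusters), `collLaw` (its law, all configurations of the edges being
equally likely).
-/

set_option autoImplicit false

namespace Pool.Agent.Results.MP_b3e76a_pr.IndependentClusters

open MeasureTheory TopologicalSpace Filter Topology H934E Metric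
open Pool.Agent.H389R2.CD Pool.Agent.H389R2.CL Pool.Agent.TH966
open scoped ENNReal

/-- `μ` is a weak limit, along some sequence of meshes, of the law of the collection of all
clusters in `R`. -/
def IsLimit (R : Rect) (μ : ProbabilityMeasure (NonemptyCompacts (NonemptyCompacts ℂ))) : Prop :=
  ∃ δ : ℕ → ℝ, (∀ j, 0 < δ j) ∧ Tendsto δ atTop (𝓝 0) ∧
    Tendsto (fun j => collLaw R (δ j)) atTop (𝓝 μ)

/-- The points which lie in a member of `𝒞` which is not a single point. -/
def big (𝒞 : NonemptyCompacts (NonemptyCompacts ℂ)) : Set ℂ :=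
  {x | ∃ K ∈ 𝒞, (K : Set ℂ).Nontrivial ∧ x ∈ K}

theorem two_lt {k : ℕ} (hk : 20 ≤ k) : (2 : ℝ≥0∞) < (k : ℝ≥0∞) * (5 / 48) := by
  rw [← mul_div_assoc, ENNReal.lt_div_iff_mul_lt (Or.inl (by norm_num)) (Or.inl (by norm_num))]
  have h1 : (2 : ℝ≥0∞) * 48 = ((96 : ℕ) : ℝ≥0∞) := by norm_num
  have h2 : (k : ℝ≥0∞) * 5 = ((k * 5 : ℕ) : ℝ≥0∞) := by push_cast; rfl
  rw [h1, h2]
  exact_mod_cast (by omega : 96 < k * 5)

theorem result :
    (∀ (R : Rect) (δ : ℕ → ℝ), (∀ i, 0 < δ i) → Tendsto δ atTop (𝓝 0) →
      ∃ φ : ℕ → ℕ, StrictMono φ ∧ ∃ μ : ProbabilityMeasure (NonemptyCompacts (NonemptyCompacts ℂ)),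
        Tendsto (fun i => collLaw R (δ (φ i))) atTop (𝓝 μ)) ∧
    (∀ (k : ℕ) (R : Fin k → Rect)
      (μ : Fin k → ProbabilityMeasure (NonemptyCompacts (NonemptyCompacts ℂ))),
      (∀ i, IsLimit (R i) (μ i)) → ∀ S : Set ℂ, (∀ i, S ⊆ (R i).D) → IsSigmaCompact S →
        ∀ᵐ 𝒞 ∂(Measure.pi fun i => (μ i : Measure (NonemptyCompacts (NonemptyCompacts ℂ)))),
          dimH {x | x ∈ S ∧ ∀ i, x ∈ big (𝒞 i)} = dimH S - (k : ℝ≥0∞) * (5 / 48) ∧
          (dimH S < (k : ℝ≥0∞) * (5 / 48) → {x | x ∈ S ∧ ∀ i, x ∈ big (𝒞 i)} = ∅)) ∧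
    (∀ (k : ℕ) (R : Rect) (μ : Fin k → ProbabilityMeasure (NonemptyCompacts (NonemptyCompacts ℂ))),
      (∀ i, IsLimit R (μ i)) →
        ∀ᵐ 𝒞 ∂(Measure.pi fun i => (μ i : Measure (NonemptyCompacts (NonemptyCompacts ℂ)))),
          dimH {x | x ∈ R.D ∧ ∀ i, x ∈ big (𝒞 i)} = 2 - (k : ℝ≥0∞) * (5 / 48) ∧
          (20 ≤ k → {x | x ∈ R.D ∧ ∀ i, x ∈ big (𝒞 i)} = ∅)) := by
  refine ⟨fun R δ hδ hlim => coll_precompact R hδ hlim, ?_, ?_⟩
  · intro k R μ hμ S hSD hS
    exact V11324.KI.clusters k R μ hμ S hSD hS
  · intro k R μ hμ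
    obtain ⟨h1, h2⟩ := V11324.KI.dim_DE R
    have h := V11324.KI.clusters k (fun _ => R) μ hμ R.D (fun _ => le_rfl) h2
    rw [h1] at h
    filter_upwards [h] with 𝒞 h𝒞
    exact ⟨h𝒞.1, fun hk => h𝒞.2 (two_lt hk)⟩

end Pool.Agent.Results.MP_b3e76a_pr.IndependentClusters
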