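import Pool.Agent.V11321.ND.Mod

/-!
# The exact modulus of non-differentiability of the percolation interface

Critical bond percolation (`q = 1`) on `δ ℤ²` in a rectangle `D = (-A, B) × (0, H)`, with the
counterclockwise boundary arc from `a = t + i H` to `b = 0` wired and the other one dual-wired. The
exploration path is parametrised by its number of steps: `Rect.curve` is the piecewise linear curve
on `[0, 1]` run at constant speed, and `Rect.time` is the number of steps times `δ ^ (7/4)`;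
`Rect.law` is the law of (curve, time). Weak limits exist along a subsequence of every sequence of
meshes.

For every weak limit `p = (f, T)`, almost surely: for all small `h`, no arc of the curve of natural
length `h` (an arc `f [u, v]` with `T (v - u) = h`) is contained in a disc of radius
`c h ^ (4/7) (log (1/h)) ^ (-1/14)`, while every subarc `f [a, b]` contains an arc of natural length
`h` which is contained in a disc of radius `C h ^ (4/7) (log (1/h)) ^ (-1/14)`. The constants `c`,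
`C` depend on the rectangle only.

Definitions: `Pool.Agent.H984R4.NP.Model` (`Rect`, `pos`, `clamp`, `pl`, `X`, `Rect.dm`,
`Rect.curve`, `Rect.time`, `Rect.law`), `Pool.Agent.H984R4.NP.Defs` (`Dm`, `Dm.edges`, `Dm.wir`,
`Dm.cfg`, `Dm.walk`, `Dm.len`) and `Pool.Agent.H984R3.Per.Defs` (states, `ae`, `mv`, `rt`, `nxt`,
`orb`).
-/

set_option autoImplicit false

namespace Pool.Agent.Results.MP_b3e76a_pr.NonDifferentiability

open H984N MeasureTheory Filter Topology

theorem result (R : Rect) :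
    (∀ δ : ℕ → ℝ, (∀ i, 0 < δ i) → Tendsto δ atTop (𝓝 0) →
      ∃ φ : ℕ → ℕ, StrictMono φ ∧ ∃ μ : ProbabilityMeasure X,
        Tendsto (fun i => R.law (δ (φ i))) atTop (𝓝 μ)) ∧
    ∃ c C : ℝ, 0 < c ∧ 0 < C ∧
      ∀ δ : ℕ → ℝ, (∀ i, 0 < δ i) → Tendsto δ atTop (𝓝 0) → ∀ μ : ProbabilityMeasure X,
        Tendsto (fun i => R.law (δ i)) atTop (𝓝 μ) →
        ∀ᵐ p ∂(μ : Measure X), 0 < p.2 ∧
          (∃ h0 : ℝ, 0 < h0 ∧ ∀ h : ℝ, 0 < h → h < h0 → ∀ u v : unitInterval,
            h ≤ p.2 * ((v : ℝ) - u) → ∀ z : ℂ, ∃ y : unitInterval, (u ≤ y ∧ y ≤ v) ∧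
              c * (h ^ (4/7 : ℝ) * Real.log (1 / h) ^ (-(1/14) : ℝ)) < dist (p.1 y) z) ∧
          ∀ a b : unitInterval, a < b → ∃ h0 : ℝ, 0 < h0 ∧ ∀ h : ℝ, 0 < h → h < h0 →
            ∃ (u v : unitInterval) (z : ℂ), (a ≤ u ∧ v ≤ b) ∧ p.2 * ((v : ℝ) - u) = h ∧
              ∀ y : unitInterval, u ≤ y → y ≤ v →
                dist (p.1 y) z ≤ C * (h ^ (4/7 : ℝ) * Real.log (1 / h) ^ (-(1/14) : ℝ)) := by
  obtain ⟨⟨c, hc, hL⟩, ⟨C, hC, hU⟩, C2, hC2, hA⟩ := Pool.Agent.Y985.ME.inputs
  obtain ⟨-, h2, -⟩ := final_of hc hC hL hU hC2 hA R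
  exact ⟨h2, Pool.Agent.V11321.ND.nondiff R⟩

end Pool.Agent.Results.MP_b3e76a_pr.NonDifferentiability
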